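import Mathlib
import Pool.Agent.Y449.SOK.Neg
import Pool.Agent.Y449.SOK.Pos

set_option autoImplicit false

open Set Topology

namespace Pool.Agent.Results.MP_fe3374_gt.Independent

open Pool.Agent.Y449.SOK (Sokolov CountablePointFiniteCellularity)
open Pool.Agent.Helper647.MM (Diamond)
open Pool.Agent.Helper647.FU (MA1)
open Pool.Agent.Helper647.GR.ForceCH (OmegaOnePreserved DiamondHolds)

/-- The question is independent of the axioms of set theory.

1. There is a notion of forcing all of whose conditions force that `ω₁` is preserved and that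
   diamond holds.
2. Diamond gives a non-metrizable Sokolov compact space `X` with `p(C_p(X)) = ω`.
3. Martin's axiom for `ℵ₁` dense sets implies that every Sokolov compact space `X` with
   `p(C_p(X)) = ω` is metrizable. -/
theorem result :
    (∃ (P : Type) (_ : Preorder P), Nonempty P ∧ ∀ p : P,
      p ∈ OmegaOnePreserved P ∧ p ∈ DiamondHolds P) ∧
    (Diamond → ∃ (X : Type) (_ : TopologicalSpace X), CompactSpace X ∧ T2Space X ∧
      Sokolov X ∧ CountablePointFiniteCellularity X ∧ ¬ TopologicalSpace.MetrizableSpace X) ∧
    (MA1 → ∀ (X : Type) [TopologicalSpace X] [CompactSpace X] [T2Space X],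
      Sokolov X → CountablePointFiniteCellularity X → TopologicalSpace.MetrizableSpace X) := by
  refine ⟨?_, fun h => Pool.Agent.Y449.SOK.main (Pool.Agent.Helper647.MM.old_diamond h),
    fun h X _ _ _ hs hp => Pool.Agent.Y449.SOK.positive h X hs hp⟩
  obtain ⟨P, hP, hne, h⟩ := Pool.Agent.Helper647.GR.ForceCH.exists_forcing
  exact ⟨P, hP, hne, fun p => ⟨(h p).1, (h p).2.1⟩⟩

end Pool.Agent.Results.MP_fe3374_gt.Independent
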